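import Mathlib

namespace Pool.Agent.Results.MP_9bc523_co.NoSupersat

open Filter Topology

/-- `x` is a solution of `A x = c` in pairwise distinct positive integers -/
def IsSol {l k : ℕ} (A : Matrix (Fin l) (Fin k) ℤ) (c : Fin l → ℤ) (x : Fin k → ℕ) : Prop :=
  (∀ j, 0 < x j) ∧ Function.Injective x ∧ A.mulVec (fun j => (x j : ℤ)) = c

/-- the number of solutions in `[n]` all of whose entries have colour `i` -/
noncomputable def count {r l k : ℕ} (A : Matrix (Fin l) (Fin k) ℤ) (c : Fin l → ℤ)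
    (col : ℕ → Fin r) (i : Fin r) (n : ℕ) : ℕ :=
  {x | IsSol A c x ∧ ∀ j, x j ≤ n ∧ col (x j) = i}.ncard

def AA : Matrix (Fin 1) (Fin 2) ℤ := !![1, -3]

theorem sol_iff (c : ℤ) (x : Fin 2 → ℕ) : IsSol AA ![c] x ↔
    0 < x 0 ∧ 0 < x 1 ∧ x 0 ≠ x 1 ∧ (x 0 : ℤ) - 3 * x 1 = c := by
  unfold IsSol
  have e : Function.Injective x ↔ x 0 ≠ x 1 := by
    constructor
    · intro h h'; exact absurd (h h') (by decide)
    · intro h a b hab
      fin_cases a <;> fin_cases b <;> simp_all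
  rw [e, Fin.forall_fin_two, funext_iff, Fin.forall_fin_one]
  simp [AA, Matrix.mulVec, dotProduct, Fin.sum_univ_two, and_assoc, sub_eq_add_neg]

theorem rank_AA : AA.rank = 1 := by
  apply le_antisymm (by simpa using AA.rank_le_height)
  have h := Matrix.rank_mul_le_left AA (!![1; 0] : Matrix (Fin 2) (Fin 1) ℤ)
  have e : AA * (!![1; 0] : Matrix (Fin 2) (Fin 1) ℤ) = 1 := by decide
  rw [e, Matrix.rank_one] at h
  simpa using h

def cc : Fin 2 → Fin 1 → ℤ := ![![-9], ![0]]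

def col (x : ℕ) : Fin 2 := if Nat.log 3 x % 2 = 0 then 0 else 1

theorem col_ne {y : ℕ} (hy : 0 < y) : col (3 * y) ≠ col y := by
  unfold col
  rw [mul_comm, Nat.log_mul_base (by norm_num) hy.ne']
  split_ifs <;> omega

theorem count_le (i : Fin 2) (m : ℕ) : count AA (cc i) col i (3 ^ m) ≤ (m + 1) * 3 := by
  unfold count
  fin_cases i
  · have : (m + 1) * 3 = (↑(Finset.range (m + 1) ×ˢ Finset.range 3) : Set (ℕ × ℕ)).ncard := by
      rw [Set.ncard_coe_finset]; simp
    rw [this]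
    refine Set.ncard_le_ncard_of_injOn (fun x => (Nat.log 3 (x 1), x 1 - 3 ^ Nat.log 3 (x 1)))
      ?_ ?_ (Finset.finite_toSet _)
    · rintro x ⟨h1, h2⟩
      obtain ⟨a, b, -, d⟩ := (sol_iff (-9) x).1 h1
      have e : x 0 = 3 * (x 1 - 3) := by omega
      have h3 := col_ne (y := x 1 - 3) (by omega)
      rw [← e, (h2 0).2, ← (h2 1).2] at h3
      simp only [Finset.coe_product, Finset.coe_range, Set.mem_prod, Set.mem_Iio]
      constructor
      · have := Nat.log_mono_right (b := 3) (h2 1).1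
        rw [Nat.log_pow (by norm_num)] at this
        omega
      · by_contra h4
        apply h3
        unfold col
        rw [Nat.log_eq_of_pow_le_of_lt_pow (b := 3) (m := Nat.log 3 (x 1)) (n := x 1 - 3)
          (by omega) (lt_of_le_of_lt (Nat.sub_le _ _) (Nat.lt_pow_succ_log_self (by norm_num) _))]
    · rintro x ⟨h1, -⟩ y ⟨h2, -⟩ h
      obtain ⟨a, b, -, d⟩ := (sol_iff (-9) x).1 h1
      obtain ⟨a', b', -, d'⟩ := (sol_iff (-9) y).1 h2
      simp only [Prod.mk.injEq] at h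
      have p1 := Nat.pow_log_le_self 3 b.ne'
      have p2 := Nat.pow_log_le_self 3 b'.ne'
      rw [h.1] at p1 h
      funext j
      fin_cases j
      · change x 0 = y 0
        omega
      · change x 1 = y 1
        omega
  · refine le_trans (le_of_eq ((congrArg Set.ncard (Set.eq_empty_iff_forall_notMem.2 ?_)).trans
      (Set.ncard_empty _))) (Nat.zero_le _)
    rintro x ⟨h1, h2⟩
    obtain ⟨a, b, -, d⟩ := (sol_iff 0 x).1 h1
    have h3 := col_ne b
    rw [show 3 * x 1 = x 0 by omega, (h2 0).2, (h2 1).2] at h3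
    exact h3 rfl

theorem result : ¬ ∀ (r : ℕ) (l k : Fin r → ℕ) (A : ∀ i, Matrix (Fin (l i)) (Fin (k i)) ℤ)
    (c : ∀ i, Fin (l i) → ℤ), 0 < r → (∀ i, (A i).rank = l i) →
    (∀ i, ∃ x, IsSol (A i) (c i) x) → (∀ i, ∃ x, IsSol (A i) 0 x) →
    (∀ col : ℕ → Fin r, ∃ i x, IsSol (A i) (c i) x ∧ ∀ j, col (x j) = i) →
    ∃ δ : ℝ, 0 < δ ∧ ∃ n₀ : ℕ, ∀ n > n₀, ∀ col : ℕ → Fin r,
      ∃ i, δ * (n : ℝ) ^ (k i - l i) ≤ count (A i) (c i) col i n := by
  intro h
  have z : (0 : Fin 1 → ℤ) = ![0] := by decide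
  have R : ∀ a b : ℕ, 0 < a → 0 < b → a ≠ b → (a : ℤ) - 3 * b = -9 → IsSol AA (cc 0) ![a, b] :=
    fun a b h1 h2 h3 h4 => (sol_iff (-9) _).2 ⟨h1, h2, h3, h4⟩
  have B : ∀ a b : ℕ, 0 < a → 0 < b → a ≠ b → (a : ℤ) - 3 * b = 0 → IsSol AA (cc 1) ![a, b] :=
    fun a b h1 h2 h3 h4 => (sol_iff 0 _).2 ⟨h1, h2, h3, h4⟩
  obtain ⟨δ, hδ, n₀, H⟩ := h 2 (fun _ => 1) (fun _ => 2) (fun _ => AA) cc two_pos
    (fun _ => rank_AA)
    (Fin.forall_fin_two.2 ⟨⟨_, R 3 4 (by decide) (by decide) (by decide) (by decide)⟩,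
      ⟨_, B 3 1 (by decide) (by decide) (by decide) (by decide)⟩⟩)
    (fun _ => ⟨![3, 1], z ▸ (sol_iff 0 _).2 (by decide)⟩)
    (fun col => by
      by_contra hn
      push Not at hn
      have r : ∀ a b : ℕ, 0 < a → 0 < b → a ≠ b → (a : ℤ) - 3 * b = -9 →
          col a ≠ 0 ∨ col b ≠ 0 := fun a b h1 h2 h3 h4 =>
        Fin.exists_fin_two.1 (hn 0 _ (R a b h1 h2 h3 h4))
      have b : ∀ a b : ℕ, 0 < a → 0 < b → a ≠ b → (a : ℤ) - 3 * b = 0 →
          col a ≠ 1 ∨ col b ≠ 1 := fun a b h1 h2 h3 h4 =>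
        Fin.exists_fin_two.1 (hn 1 _ (B a b h1 h2 h3 h4))
      have a1 := r 9 6 (by decide) (by decide) (by decide) (by decide)
      have a2 := b 18 6 (by decide) (by decide) (by decide) (by decide)
      have a3 := r 18 9 (by decide) (by decide) (by decide) (by decide)
      have a4 := b 9 3 (by decide) (by decide) (by decide) (by decide)
      have a5 := r 3 4 (by decide) (by decide) (by decide) (by decide)
      have a6 := b 12 4 (by decide) (by decide) (by decide) (by decide)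
      have a7 := r 27 12 (by decide) (by decide) (by decide) (by decide)
      have a8 := b 27 9 (by decide) (by decide) (by decide) (by decide)
      omega)
  have l := (tendsto_pow_const_div_const_pow_of_one_lt 1 (show (1 : ℝ) < 3 by norm_num)).const_mul 6
  rw [mul_zero] at l
  obtain ⟨m, h1, h2, h3⟩ := ((l.eventually (gt_mem_nhds hδ)).and
    ((eventually_gt_atTop n₀).and (eventually_gt_atTop 0))).exists
  obtain ⟨i, hi⟩ := H (3 ^ m) (h2.trans (Nat.lt_pow_self (by norm_num))) col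
  have h4 : (count AA (cc i) col i (3 ^ m) : ℝ) ≤ ((m + 1) * 3 : ℕ) := by
    exact_mod_cast count_le i m
  have h5 : (1 : ℝ) ≤ m := by exact_mod_cast h3
  rw [← mul_div_assoc, div_lt_iff₀ (by positivity)] at h1
  simp only [Nat.add_one_sub_one, pow_one] at hi h1
  push_cast at hi h4
  linarith

end Pool.Agent.Results.MP_9bc523_co.NoSupersat
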